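import Pool.Agent.W434.BW.StmB

set_option autoImplicit false

namespace Pool.Agent.W52.BW

open Pool.Agent.W434.BW

open Classical in
theorem upd_mem {V K A : Type} {ι : K → Type} (M : MI V K A ι) (k : K) (C : Set (ι k → A))
    (hC : C ⊆ M.R k) (k' : K) (r : ι k' → A) (h : r ∈ Function.update M.R k C k') :
    r ∈ M.R k' := by
  by_cases hk : k' = k
  · subst hk
    rw [Function.update_self] at h
    exact hC h
  · rw [Function.update_of_ne hk] at h
    exact h

open Classical in
theorem redK_aux {Ω : Type} {ar : Ω → ℕ} {V K A : Type} [Finite A] {ι : K → Type}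
    (M : MI V K A ι) (k : K) (C : Set (ι k → A)) (hC : C ⊆ M.R k)
    (hW : S_walk) (hOk : M.sys.Ok) (hQ : M.sys.Qc)
    (hOk' : ({ M with R := Function.update M.R k C } : MI V K A ι).sys.Ok)
    (a : Alg ar A) (ha : Idem a) (hrel : ∀ s, Rel a a (M.sys.E s)) (T : Tm ar (Fin 3))
    (hT : RAbs (piA a (ι k)) T C (M.R k)) :
    ({ M with R := Function.update M.R k C } : MI V K A ι).sys.Qc := by
  have key : ∀ (x y z : ι k → A) (i : ι k), T.ev (piA a (ι k)) ![x, y, z] i =
      T.ev a ![x i, y i, z i] := by
    intro x y z i
    rw [ev_pi]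
    congr 1
    exact vec3 (fun s : ι k → A => s i) x y z
  refine hW V _ A M.sys ({ M with R := Function.update M.R k C } : MI V K A ι).sys.E M.P
    (fun x y z => T.ev a ![x, y, z]) hOk hQ hOk' ?_ ?_ ?_
  · intro x
    have h3 : (![x, x, x] : Fin 3 → A) = fun _ => x := by
      funext v
      fin_cases v <;> rfl
    show T.ev a ![x, x, x] = x
    rw [h3]
    exact ev_idem ha T x
  · intro s x y hs
    rcases s with p | v
    · obtain ⟨r, hr, h1, h2⟩ := hs
      exact ⟨r, upd_mem M k C hC p.1 r hr, h1, h2⟩
    · exact hs
  · intro s x1 y1 x2 y2 x3 y3 h1 h2 h3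
    have hgen : (∀ x y, M.sys.E s x y →
        ({ M with R := Function.update M.R k C } : MI V K A ι).sys.E s x y) →
        (∀ x y, ({ M with R := Function.update M.R k C } : MI V K A ι).sys.E s x y →
          M.sys.E s x y) →
        ({ M with R := Function.update M.R k C } : MI V K A ι).sys.E s (T.ev a ![x1, x2, x3])
          (T.ev a ![y1, y2, y3]) ∧
        ({ M with R := Function.update M.R k C } : MI V K A ι).sys.E s (T.ev a ![x1, x3, x2])
          (T.ev a ![y1, y3, y2]) ∧
        ({ M with R := Function.update M.R k C } : MI V K A ι).sys.E s (T.ev a ![x3, x1, x2])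
          (T.ev a ![y3, y1, y2]) := by
      intro hup hdn
      have g1 := hdn _ _ h1
      have g2 := hdn _ _ h2
      refine ⟨hup _ _ (ev_rel (hrel s) T _ _ ?_), hup _ _ (ev_rel (hrel s) T _ _ ?_),
        hup _ _ (ev_rel (hrel s) T _ _ ?_)⟩
      · intro v
        fin_cases v
        · exact g1
        · exact g2
        · exact h3
      · intro v
        fin_cases v
        · exact g1
        · exact h3
        · exact g2
      · intro v
        fin_cases v
        · exact h3
        · exact g1
        · exact g2
    rcases s with ⟨k', i, j⟩ | v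
    · by_cases hk : k' = k
      · subst hk
        obtain ⟨r1, hr1, e1, f1⟩ := h1
        obtain ⟨r2, hr2, e2, f2⟩ := h2
        obtain ⟨r3, hr3, e3, f3⟩ := h3
        have hr1' : r1 ∈ C := by
          have : r1 ∈ Function.update M.R k' C k' := hr1
          rwa [Function.update_self] at this
        have hr2' : r2 ∈ C := by
          have : r2 ∈ Function.update M.R k' C k' := hr2
          rwa [Function.update_self] at this
        have hmem : ∀ r : ι k' → A, r ∈ C → r ∈ Function.update M.R k' C k' := by
          intro r hr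
          rwa [Function.update_self]
        obtain ⟨g1, g2, g3⟩ := hT r1 hr1' r2 hr2' r3 hr3
        dsimp only at e1 f1 e2 f2 e3 f3
        refine ⟨⟨_, hmem _ g1, ?_, ?_⟩, ⟨_, hmem _ g2, ?_, ?_⟩, ⟨_, hmem _ g3, ?_, ?_⟩⟩
        · rw [key, e1, e2, e3]
        · rw [key, f1, f2, f3]
        · rw [key, e1, e2, e3]
        · rw [key, f1, f2, f3]
        · rw [key, e1, e2, e3]
        · rw [key, f1, f2, f3]
      · apply hgen
        · rintro x y ⟨r, hr, h⟩
          refine ⟨r, ?_, h⟩
          show r ∈ Function.update M.R k C k'
          rw [Function.update_of_ne hk]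
          exact hr
        · rintro x y ⟨r, hr, h⟩
          exact ⟨r, upd_mem M k C hC k' r hr, h⟩
    · apply hgen
      · intro x y h
        exact h
      · intro x y h
        exact h

theorem redK (hS : S_sysok) (hW : S_walk) : S_redK := by
  classical
  intro Ω1 Ω2 ar1 ar2 V K A _ _ _ ι _ M u1 u2 a1 a2 hTwo hOk hQ k C hCR hCne hCR' hext hcase
  have hOk' : ({ M with R := Function.update M.R k C } : MI V K A ι).Ok a1 a2 := by
    refine ⟨hOk.ne, ?_, hOk.subP, ?_, ?_, ?_, ?_⟩
    · intro k'
      show (Function.update M.R k C k').Nonempty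
      by_cases hk : k' = k
      · subst hk
        rw [Function.update_self]
        exact hCne
      · rw [Function.update_of_ne hk]
        exact hOk.neR k'
    · intro k' hfl
      show Sub (piA a1 (ι k')) (Function.update M.R k C k')
      by_cases hk : k' = k
      · subst hk
        rw [Function.update_self]
        rcases hcase with h | h
        · exact h.2.1
        · exact absurd hfl h.1
      · rw [Function.update_of_ne hk]
        exact hOk.sub1 k' hfl
    · intro k' hfl
      show Sub (piA a2 (ι k')) (Function.update M.R k C k')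
      by_cases hk : k' = k
      · subst hk
        rw [Function.update_self]
        rcases hcase with h | h
        · exact absurd h.1 hfl
        · exact h.2.1
      · rw [Function.update_of_ne hk]
        exact hOk.sub2 k' hfl
    · intro k' r hr i
      exact hOk.dom k' r (upd_mem M k C hCR k' r hr) i
    · intro k' i x hx
      show ∃ r ∈ Function.update M.R k C k', r i = x
      by_cases hk : k' = k
      · subst hk
        rw [Function.update_self]
        exact hext i x hx
      · rw [Function.update_of_ne hk]
        exact hOk.ext k' i x hx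
  obtain ⟨hsys, hrel1, hrel2, _⟩ := hS Ω1 Ω2 ar1 ar2 V K A ι M u1 u2 a1 a2 hTwo hOk
  obtain ⟨hsys', _, _, _⟩ := hS Ω1 Ω2 ar1 ar2 V K A ι
    ({ M with R := Function.update M.R k C } : MI V K A ι) u1 u2 a1 a2 hTwo hOk'
  refine ⟨Function.update M.R k C, M.P, hOk', ?_, ?_, ?_, ?_⟩
  · rcases hcase with ⟨_, _, T, hT⟩ | ⟨_, _, T, hT⟩
    · exact redK_aux M k C hCR hW hsys hQ hsys' a1 hTwo.n1.1 hrel1 T hT
    · exact redK_aux M k C hCR hW hsys hQ hsys' a2 hTwo.n2.1 hrel2 T hT
  · intro k' r hr
    exact upd_mem M k C hCR k' r hr
  · intro x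
    exact subset_rfl
  · right
    refine ⟨k, ?_⟩
    rw [Function.update_self]
    exact hCR'

end Pool.Agent.W52.BW
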